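import Pool.Agent.H19.RWp.InsL
import Pool.Agent.H42.PK.PkB
import Pool.Agent.H42.PK.PkX

/-!
MP_1e629d_co, part (D): the PEAK RULE. A word inserted into a chain is a hook word if and only if the
list of the rows which grow is a hook word for `Rp`.
-/

set_option autoImplicit false

namespace Pool.Agent.H42.PK

open Pool.Agent.H71.RW Pool.Agent.H19.RWp.B Pool.Agent.H19.RWi

variable {α : Type*} {R : α → α → Prop}

/-! ### hook words and triples -/

theorem hk_nil' : Hk R ([] : List α) := ⟨[], [], rfl, List.Pairwise.nil, List.Pairwise.nil⟩

theorem hk_one' (a : α) : Hk R [a] :=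
  ⟨[a], [], rfl, List.pairwise_singleton _ _, List.Pairwise.nil⟩

theorem hk_two' (a b : α) : Hk R [a, b] :=
  ⟨[a], [b], rfl, List.pairwise_singleton _ _, List.pairwise_singleton _ _⟩

theorem hk3_iff (a b c : α) : Hk R [a, b, c] ↔ (R a b → R b c) := by
  constructor
  · intro hk hab
    exact hk_three hk hab
  · intro hf
    by_cases hab : R a b
    · refine ⟨[a], [b, c], rfl, List.pairwise_singleton _ _, ?_⟩
      unfold AL
      rw [List.pairwise_pair]
      exact hf hab
    · refine ⟨[a, b], [c], rfl, ?_, List.pairwise_singleton _ _⟩
      unfold DL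
      rw [List.pairwise_pair]
      exact hab

theorem hk_glue (h : Sup R) (a b c : α) (w : List α) :
    Hk R (a :: b :: c :: w) ↔ Hk R [a, b, c] ∧ Hk R (b :: c :: w) := by
  constructor
  · intro hk
    refine ⟨hk_sub hk ?_, hk_sub hk (List.sublist_cons_self _ _)⟩
    exact (((List.nil_sublist w).cons_cons c).cons_cons b).cons_cons a
  · rintro ⟨h3, D, A, hw, hD, hA⟩
    have hf := (hk3_iff a b c).1 h3
    unfold DL at hD
    unfold AL at hA
    rcases D with _ | ⟨d, D'⟩
    · rw [List.nil_append] at hw
      refine ⟨[a], b :: c :: w, rfl, List.pairwise_singleton _ _, ?_⟩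
      unfold AL
      rw [hw]; exact hA
    · rw [List.cons_append, List.cons.injEq] at hw
      obtain ⟨rfl, hw⟩ := hw
      by_cases hab : R a b
      · have hbc := hf hab
        rcases D' with _ | ⟨e, D''⟩
        · rw [List.nil_append] at hw
          refine ⟨[a], b :: c :: w, rfl, List.pairwise_singleton _ _, ?_⟩
          unfold AL
          rw [hw, List.pairwise_cons]
          refine ⟨?_, hA⟩
          intro e he
          rw [← hw] at he hA
          rcases List.mem_cons.1 he with rfl | he
          · exact hbc
          · exact h.tr _ _ _ hbc ((List.pairwise_cons.1 hA).1 e he)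
        · rw [List.cons_append, List.cons.injEq] at hw
          obtain ⟨rfl, hw⟩ := hw
          exact absurd hbc ((List.pairwise_cons.1 hD).1 c List.mem_cons_self)
      · refine ⟨a :: b :: D', A, by rw [hw]; rfl, ?_, hA⟩
        unfold DL
        rw [List.pairwise_cons]
        refine ⟨?_, hD⟩
        intro e he
        rcases List.mem_cons.1 he with rfl | he
        · exact hab
        · exact h.nt _ _ _ hab ((List.pairwise_cons.1 hD).1 e he)

/-- a hook word can be continued if the last triple is no peak. -/
theorem hk_snoc3 (h : Sup R) (v : List α) (a b c : α) (hk : Hk R ((v ++ [a]) ++ [b]))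
    (hf : R a b → R b c) : Hk R (((v ++ [a]) ++ [b]) ++ [c]) := by
  by_cases hbc : R b c
  · exact hk_snoc_snoc h hk hbc
  · have hab : ¬ R a b := fun hc => hbc (hf hc)
    obtain ⟨D, A, hw, hD, hA⟩ := hk
    rcases List.eq_nil_or_concat A with rfl | ⟨A', z, rfl⟩
    · rw [List.append_nil] at hw
      rw [hw]
      exact ⟨D, [c], rfl, hD, List.pairwise_singleton _ _⟩
    · rw [List.concat_eq_append] at hw hA
      rw [← List.append_assoc] at hw
      obtain ⟨h4, h5⟩ := List.append_inj' hw rfl
      have h6 : b = z := by simpa using h5
      subst h6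
      rcases List.eq_nil_or_concat A' with rfl | ⟨A'', z', rfl⟩
      · rw [List.append_nil] at h4
        refine ⟨(v ++ [a]) ++ [b], [c], rfl, ?_, List.pairwise_singleton _ _⟩
        rw [← h4] at hD
        unfold DL at hD ⊢
        rw [List.pairwise_append]
        refine ⟨hD, List.pairwise_singleton _ _, ?_⟩
        intro e he e' he'
        have he'' : e' = b := by simpa using he'
        subst he''
        rcases List.mem_append.1 he with he | he
        · exact h.nt _ _ _ ((List.pairwise_append.1 hD).2.2 e he a (by simp)) hab
        · have : e = a := by simpa using he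
          rw [this]; exact hab
      · exfalso
        rw [List.concat_eq_append, ← List.append_assoc] at h4
        obtain ⟨h7, h8⟩ := List.append_inj' h4 rfl
        have h9 : a = z' := by simpa using h8
        subst h9
        rw [List.concat_eq_append] at hA
        unfold AL at hA
        apply hab
        exact (List.pairwise_append.1 hA).2.2 a (by simp) b (by simp)

/-! ### three crossings -/

theorem p3 (h : Sup R) {u w w' w'' : List α} {x x' x'' y y' y'' : α} (h1 : Cr R u x y w)
    (h2 : Cr R w x' y' w') (h3 : Cr R w' x'' y'' w'') (hy : R y y') (hy' : ¬ R y' y'') :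
    R x x' := by
  have e := p2 (sup_rv h) (cr_rv h h3) (cr_rv h h2) (cr_rv h h1) hy' (fun hc => hc hy)
  by_contra hcon
  exact e hcon

theorem pk_bbb (h : Sup R) {u w w' w'' : List α} {x x' x'' y y' y'' : α} (h1 : Cr R u x y w)
    (h2 : Cr R w x' y' w') (h3 : Cr R w' x'' y'' w'') :
    (R x x' → R x' x'') ↔ (R y y' → R y' y'') := by
  constructor
  · intro hf hy
    by_contra hcon
    exact hcon (p1 h h2 h3 (hf (p3 h h1 h2 h3 hy hcon)))
  · intro hf hx
    by_contra hcon
    exact p2 h h1 h2 h3 hx hcon (hf (p1 h h1 h2 hx))

theorem cr_mem {u w : List α} {x y : α} (hc : Cr R u x y w) : x ∈ w := by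
  obtain ⟨D1, D2, A1, A2, a, _, rfl, _⟩ := hc
  simp

/-- the last letter of the new row: it is `x`, or an ascent from `x`. -/
theorem cr_last (h : Sup R) {u w : List α} {x y : α} (hc : Cr R u x y w) :
    ∃ w0 b, w = w0 ++ [b] ∧ (x = b ∨ R x b) := by
  obtain ⟨D1, D2, A1, A2, a, _, rfl, _, hA, _, hax, _, _⟩ := hc
  rcases List.eq_nil_or_concat A2 with rfl | ⟨A', z, rfl⟩
  · exact ⟨(D1 ++ a :: D2) ++ A1, x, by simp, Or.inl rfl⟩
  · refine ⟨(D1 ++ a :: D2) ++ (A1 ++ x :: A'), z, by simp, Or.inr ?_⟩
    have haz : R a z := by
      unfold AL at hA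
      have e := (List.pairwise_append.1 hA).2.1
      exact (List.pairwise_cons.1 e).1 z (by simp)
    by_contra hcon
    exact h.nt _ _ _ hax hcon haz

/-! ### the peak rule for three letters -/

theorem peak3 (h : Sup R) : ∀ (T : List (List α)) {T1 T2 T3 : List (List α)} {x x' x'' : α}
    {r r' r'' : ℕ}, Ins R T x T1 r → Ins R T1 x' T2 r' → Ins R T2 x'' T3 r'' →
    ((R x x' → R x' x'') ↔ (r' ≤ r → r'' ≤ r')) := by
  intro T
  induction T with
  | nil =>
    intro T1 T2 T3 x x' x'' r r' r'' h1 h2 h3
    cases h1
    cases h2 with
    | bump _ w _ T' _ y s hc _ => exact absurd (hk_two' x x') (cr_not_hk hc)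
    | grow _ _ _ _ =>
      cases h3 with
      | grow _ _ _ hg =>
        constructor
        · intro _ _; exact le_rfl
        · intro _ hx
          exact hk_three (show Hk R [x, x', x''] from hg) hx
      | bump _ w _ T' _ y s hc _ =>
        constructor
        · intro hf
          exact absurd ((hk3_iff x x' x'').2 hf) (cr_not_hk hc)
        · intro hf
          exact absurd (hf le_rfl) (by omega)
  | cons u T0 ih =>
    intro T1 T2 T3 x x' x'' r r' r'' h1 h2 h3
    cases h1 with
    | grow _ _ _ g1 =>
      cases h2 with
      | grow _ _ _ g2 =>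
        cases h3 with
        | grow _ _ _ g3 =>
          constructor
          · intro _ _; exact le_rfl
          · intro _ hx
            have e : [x, x', x''].Sublist (((u ++ [x]) ++ [x']) ++ [x'']) := by
              have e1 : ((u ++ [x]) ++ [x']) ++ [x''] = u ++ [x, x', x''] := by simp
              rw [e1]
              exact List.sublist_append_right _ _
            exact hk_three (hk_sub g3 e) hx
        | bump _ w _ T' _ y s hc _ =>
          constructor
          · intro hf
            exact absurd (hk_snoc3 h u x x' x'' g2 hf) (cr_not_hk hc)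
          · intro hf
            exact absurd (hf le_rfl) (by omega)
      | bump _ w _ T' _ y s hc hT =>
        constructor
        · intro _ hle
          exact absurd hle (by omega)
        · intro _ hx
          exact absurd (hk_snoc_snoc h g1 hx) (cr_not_hk hc)
    | bump _ w _ T' _ y s c1 hT =>
      cases h2 with
      | grow _ _ _ g2 =>
        cases h3 with
        | grow _ _ _ g3 =>
          constructor
          · intro _ _; exact le_rfl
          · intro _ hx
            have e : [x, x', x''].Sublist ((w ++ [x']) ++ [x'']) := by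
              have e1 : (w ++ [x']) ++ [x''] = w ++ [x', x''] := by simp
              rw [e1]
              exact (List.singleton_sublist.2 (cr_mem c1)).append (List.Sublist.refl [x', x''])
            exact hk_three (hk_sub g3 e) hx
        | bump _ w2 _ T'' _ y2 s2 c3 hT3 =>
          obtain ⟨w0, b, hw, hxb⟩ := cr_last h c1
          have hn := cr_not_hk c3
          rw [hw] at g2 hn
          constructor
          · intro hf
            exfalso
            have hx'' : ¬ R x' x'' := fun hc => hn (hk_snoc_snoc h g2 hc)
            have hbx : R b x' := by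
              by_contra hcon
              exact hn (hk_snoc3 h w0 b x' x'' g2 (fun hc => absurd hc hcon))
            have hxx : R x x' := by
              rcases hxb with rfl | hxb
              · exact hbx
              · exact h.tr _ _ _ hxb hbx
            exact hx'' (hf hxx)
          · intro hf
            exact absurd (hf (Nat.zero_le _)) (by omega)
      | bump _ w2 _ T'' _ y2 s2 c2 hT2 =>
        cases h3 with
        | grow _ _ _ g3 =>
          constructor
          · intro _ _; exact Nat.zero_le _
          · intro _ hx
            have e : [x, x', x''].Sublist (w2 ++ [x'']) :=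
              (pX h c1 c2 hx).append (List.Sublist.refl [x''])
            exact hk_three (hk_sub g3 e) hx
        | bump _ w3 _ T''' _ y3 s3 c3 hT3 =>
          rw [pk_bbb h c1 c2 c3, ih hT hT2 hT3]
          constructor
          · intro hf hle
            have := hf (by omega)
            omega
          · intro hf hle
            have := hf (by omega)
            omega

theorem sup_Rp : Sup Rp := by
  constructor
  · intro a b c h1 h2
    exact le_trans h2 h1
  · intro a b c h1 h2
    unfold Rp at *
    omega

/-- **The peak rule.** -/
theorem peak (h : Sup R) : ∀ (T T2 : List (List α)) (w : List α) (ρ : List ℕ), Ch R T →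
    InsL R T w T2 ρ → (Hk R w ↔ Hk Rp ρ) := by
  intro T T2 w
  induction w generalizing T with
  | nil =>
    intro ρ _ h1
    cases h1
    exact ⟨fun _ => hk_nil', fun _ => hk_nil'⟩
  | cons x w ih =>
    intro ρ hT h1
    cases h1 with
    | cons _ T1 _ _ _ r ρ1 g1 k1 =>
      cases k1 with
      | nil => exact ⟨fun _ => hk_one' r, fun _ => hk_one' x⟩
      | cons _ T1' _ x' w' r' ρ' g2 k2 =>
        cases k2 with
        | nil => exact ⟨fun _ => hk_two' r r', fun _ => hk_two' x x'⟩
        | cons _ T1'' _ x'' w'' r'' ρ'' g3 k3 =>
          rw [hk_glue h, hk_glue sup_Rp, hk3_iff, hk3_iff]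
          have e1 := peak3 h T g1 g2 g3
          have e2 := ih T1 (r' :: r'' :: ρ'') (ins_ch h g1 hT)
            (InsL.cons _ _ _ _ _ _ _ g2 (InsL.cons _ _ _ _ _ _ _ g3 k3))
          rw [e2]
          have e3 : (Rp r r' → Rp r' r'') ↔ (r' ≤ r → r'' ≤ r') := Iff.rfl
          rw [e3, e1]

end Pool.Agent.H42.PK
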