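import Pool.Agent.H71.RW.Defs

/-!
MP_1e629d_co, part (D), peak rule: two consecutive crossings of an ascent give an ascent.
Index form of the crossing.
-/

set_option autoImplicit false

namespace Pool.Agent.H42.PK

open Pool.Agent.H71.RW

variable {α : Type*}

/-- The crossing in terms of positions. -/
structure PkIdx (R : α → α → Prop) (N : ℕ) (u : ℕ → α) (x y : α) (w : ℕ → α) (n i j : ℕ) :
    Prop where
  lin : i < n
  lnj : n ≤ j
  ljN : j < N
  ui : u i = y
  wj : w j = x
  wi : w i = u j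
  oth : ∀ k, k ≠ i → k ≠ j → w k = u k
  dl : ∀ k l, k < l → l < n → ¬ R (u k) (u l)
  al : ∀ k l, n ≤ k → k < l → l < N → R (u k) (u l)
  before : ∀ k, n ≤ k → k < j → R (u k) x
  nax : ¬ R (u j) x
  nea : ∀ k, k < i → ¬ R (u k) (u j)
  rya : R y (u j)

theorem pk_getD_at (X Y : List α) (p z : α) : (X ++ p :: Y).getD X.length z = p := by
  rw [List.getD_append_right _ _ _ _ le_rfl, Nat.sub_self, List.getD_cons_zero]

theorem pk_getD_ne (X Y : List α) (p q z : α) (k : ℕ) (hk : k ≠ X.length) :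
    (X ++ p :: Y).getD k z = (X ++ q :: Y).getD k z := by
  rcases lt_or_ge k X.length with h | h
  · rw [List.getD_append _ _ _ _ h, List.getD_append _ _ _ _ h]
  · rw [List.getD_append_right _ _ _ _ h, List.getD_append_right _ _ _ _ h]
    obtain ⟨m, hm⟩ : ∃ m, k - X.length = m + 1 := ⟨k - X.length - 1, by omega⟩
    rw [hm, List.getD_cons_succ, List.getD_cons_succ]

theorem pk_pw {S : α → α → Prop} {l : List α} (h : l.Pairwise S) (z : α) (i j : ℕ) (hij : i < j)
    (hj : j < l.length) : S (l.getD i z) (l.getD j z) := by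
  rw [List.getD_eq_getElem _ _ hj, List.getD_eq_getElem _ _ (hij.trans hj)]
  exact List.pairwise_iff_getElem.1 h i j _ _ hij

theorem pk_mem (l : List α) (z : α) (i : ℕ) (hi : i < l.length) : l.getD i z ∈ l := by
  rw [List.getD_eq_getElem _ _ hi]
  exact List.getElem_mem hi

theorem pk_idx {R : α → α → Prop} {u w : List α} {x y : α} (z : α) (h : Cr R u x y w) :
    w.length = u.length ∧ ∃ n i j, PkIdx R u.length (fun k => u.getD k z) x y
      (fun k => w.getD k z) n i j := by
  obtain ⟨D1, D2, A1, A2, a, rfl, rfl, hD, hA, hb, hax, hea, hya⟩ := h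
  refine ⟨by simp, (D1 ++ y :: D2).length, D1.length, (D1 ++ y :: D2).length + A1.length, ?_⟩
  have hLL : (D1 ++ a :: D2).length = (D1 ++ y :: D2).length := by simp
  have hin : D1.length < (D1 ++ y :: D2).length := by
    rw [List.length_append, List.length_cons]; omega
  have hjl : (D1 ++ y :: D2).length + A1.length
      < ((D1 ++ y :: D2) ++ (A1 ++ a :: A2)).length := by
    rw [List.length_append (as := D1 ++ y :: D2), List.length_append (as := A1), List.length_cons]
    omega
  have hul : ∀ k, k < (D1 ++ y :: D2).length →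
      ((D1 ++ y :: D2) ++ (A1 ++ a :: A2)).getD k z = (D1 ++ y :: D2).getD k z :=
    fun k hk => List.getD_append _ _ _ _ hk
  have hur : ∀ k, (D1 ++ y :: D2).length ≤ k →
      ((D1 ++ y :: D2) ++ (A1 ++ a :: A2)).getD k z
        = (A1 ++ a :: A2).getD (k - (D1 ++ y :: D2).length) z :=
    fun k hk => List.getD_append_right _ _ _ _ hk
  have hwl : ∀ k, k < (D1 ++ y :: D2).length →
      ((D1 ++ a :: D2) ++ (A1 ++ x :: A2)).getD k z = (D1 ++ a :: D2).getD k z :=
    fun k hk => List.getD_append _ _ _ _ (by rw [hLL]; exact hk)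
  have hwr : ∀ k, (D1 ++ y :: D2).length ≤ k →
      ((D1 ++ a :: D2) ++ (A1 ++ x :: A2)).getD k z
        = (A1 ++ x :: A2).getD (k - (D1 ++ y :: D2).length) z := by
    intro k hk
    rw [List.getD_append_right _ _ _ _ (by rw [hLL]; exact hk), hLL]
  have huj : ((D1 ++ y :: D2) ++ (A1 ++ a :: A2)).getD ((D1 ++ y :: D2).length + A1.length) z
      = a := by
    rw [hur _ (Nat.le_add_right _ _), Nat.add_sub_cancel_left, pk_getD_at]
  refine ⟨hin, Nat.le_add_right _ _, hjl, ?_, ?_, ?_, ?_, ?_, ?_, ?_, ?_, ?_, ?_⟩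
  · show ((D1 ++ y :: D2) ++ (A1 ++ a :: A2)).getD D1.length z = y
    rw [hul _ hin, pk_getD_at]
  · show ((D1 ++ a :: D2) ++ (A1 ++ x :: A2)).getD ((D1 ++ y :: D2).length + A1.length) z = x
    rw [hwr _ (Nat.le_add_right _ _), Nat.add_sub_cancel_left, pk_getD_at]
  · show ((D1 ++ a :: D2) ++ (A1 ++ x :: A2)).getD D1.length z
      = ((D1 ++ y :: D2) ++ (A1 ++ a :: A2)).getD ((D1 ++ y :: D2).length + A1.length) z
    rw [huj, hwl _ hin, pk_getD_at]
  · intro k hki hkj
    show ((D1 ++ a :: D2) ++ (A1 ++ x :: A2)).getD k z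
      = ((D1 ++ y :: D2) ++ (A1 ++ a :: A2)).getD k z
    rcases lt_or_ge k (D1 ++ y :: D2).length with hk | hk
    · rw [hul _ hk, hwl _ hk]
      exact pk_getD_ne _ _ _ _ _ _ hki
    · rw [hur _ hk, hwr _ hk]
      exact pk_getD_ne _ _ _ _ _ _ (by omega)
  · intro k l hkl hl
    show ¬ R (((D1 ++ y :: D2) ++ (A1 ++ a :: A2)).getD k z)
      (((D1 ++ y :: D2) ++ (A1 ++ a :: A2)).getD l z)
    rw [hul _ hl, hul _ (hkl.trans hl)]
    exact pk_pw hD z k l hkl hl
  · intro k l hk hkl hl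
    show R (((D1 ++ y :: D2) ++ (A1 ++ a :: A2)).getD k z)
      (((D1 ++ y :: D2) ++ (A1 ++ a :: A2)).getD l z)
    rw [hur _ hk, hur _ (by omega)]
    rw [List.length_append (as := D1 ++ y :: D2)] at hl
    exact pk_pw hA z _ _ (by omega) (by omega)
  · intro k hk hkj
    show R (((D1 ++ y :: D2) ++ (A1 ++ a :: A2)).getD k z) x
    rw [hur _ hk, List.getD_append _ _ _ _ (by omega)]
    exact hb _ (pk_mem _ _ _ (by omega))
  · show ¬ R (((D1 ++ y :: D2) ++ (A1 ++ a :: A2)).getD ((D1 ++ y :: D2).length + A1.length) z) x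
    rw [huj]; exact hax
  · intro k hk
    show ¬ R (((D1 ++ y :: D2) ++ (A1 ++ a :: A2)).getD k z)
      (((D1 ++ y :: D2) ++ (A1 ++ a :: A2)).getD ((D1 ++ y :: D2).length + A1.length) z)
    rw [huj, hul _ (hk.trans hin), List.getD_append _ _ _ _ hk]
    exact hea _ (pk_mem _ _ _ hk)
  · show R y (((D1 ++ y :: D2) ++ (A1 ++ a :: A2)).getD ((D1 ++ y :: D2).length + A1.length) z)
    rw [huj]; exact hya

/-- positions of two consecutive crossings of an ascent. -/
theorem pk_pos {R : α → α → Prop} (h : Sup R) {N : ℕ} {u w w' : ℕ → α} {x y x' y' : α}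
    {n i j n' i' j' : ℕ} (h1 : PkIdx R N u x y w n i j) (h2 : PkIdx R N w x' y' w' n' i' j')
    (hx : R x x') : j < j' ∧ i' ≤ i := by
  have hj : j < j' := by
    by_contra hcon
    rcases lt_or_eq_of_le (not_lt.1 hcon) with hlt | heq
    · have e1 := h2.al j' j h2.lnj hlt h1.ljN
      rw [h1.wj] at e1
      exact h2.nax (h.tr _ _ _ e1 hx)
    · subst heq
      apply h2.nax
      rw [h1.wj]
      exact hx
  refine ⟨hj, ?_⟩
  by_contra hcon
  have hii : i < i' := not_le.1 hcon
  have e1 := h2.nea i hii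
  rw [h1.wi, h1.oth j' (by have := h1.lin; have := h1.lnj; omega) (by omega)] at e1
  exact e1 (h1.al j j' h1.lnj hj h2.ljN)

theorem p1 {R : α → α → Prop} {u w w' : List α} {x y x' y' : α} (h : Sup R)
    (h1 : Cr R u x y w) (h2 : Cr R w x' y' w') (hx : R x x') : R y y' := by
  obtain ⟨hl1, n, i, j, H1⟩ := pk_idx x h1
  obtain ⟨hl2, n', i', j', H2⟩ := pk_idx x h2
  rw [hl1] at H2
  obtain ⟨hj, hi⟩ := pk_pos h H1 H2 hx
  rcases lt_or_eq_of_le hi with hlt | heq
  · have e1 := H1.nea i' hlt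
    have e2 : y' = u.getD i' x := by
      rw [← H2.ui]
      exact H1.oth i' (by omega) (by have := H1.lin; have := H1.lnj; omega)
    by_contra hcon
    refine h.nt _ _ _ hcon ?_ H1.rya
    rw [e2]; exact e1
  · subst heq
    have e2 : y' = u.getD j x := by
      rw [← H2.ui]; exact H1.wi
    rw [e2]
    exact H1.rya

end Pool.Agent.H42.PK
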